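import Pool.Agent.H2.Final

/-!
# The average size of the 2-Selmer group over `𝔽_q(t)`, `q` even

Let `k` be a finite field of characteristic two with `q` elements. We fix a squarefree polynomial
`a₁` of degree exactly `d` and a polynomial `a₃` of degree at most `3 d` coprime to `a₁`, and we let
`a₂, a₄, a₆` run through all polynomials of degrees at most `2 d, 4 d, 6 d` for which the
discriminant of `y² + a₁ x y + a₃ y = x³ + a₂ x² + a₄ x + a₆` is squarefree as a section of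
`O(12 d)`, that is, squarefree and of degree at least `12 d - 1`. We show that the average size of
the 2-Selmer group over this family is at most `3 + ε` once `d` is large, uniformly in `a₁, a₃`,
and we give an explicit bound for every `d`.
-/

namespace Pool.Agent.Results.MP_a3f657_nt.SelmerTwoCharTwo

open Polynomial Pool.Agent.H2

universe u

variable {k : Type u} [Field k]

/-- The Weierstrass equation over `k[X]` with `w = (a₂, a₄, a₆)`. -/
def eqn (a₁ a₃ : k[X]) (w : k[X] × k[X] × k[X]) : WeierstrassCurve k[X] :=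
  ⟨a₁, w.1, a₃, w.2.1, w.2.2⟩

/-- The same equation over the field `k(X)` of rational functions. -/
noncomputable abbrev curve (a₁ a₃ : k[X]) (w : k[X] × k[X] × k[X]) :
    WeierstrassCurve.Affine (RatFunc k) :=
  (eqn a₁ a₃ w).map (algebraMap k[X] (RatFunc k))

/-- The family: `a₂, a₄, a₆` have degrees at most `2 d, 4 d, 6 d`, and the discriminant is
squarefree and of degree at least `12 d - 1`. -/
def family (a₁ a₃ : k[X]) (d : ℕ) : Set (k[X] × k[X] × k[X]) :=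
  {w | w.1.natDegree ≤ 2 * d ∧ w.2.1.natDegree ≤ 4 * d ∧ w.2.2.natDegree ≤ 6 * d ∧
    Squarefree (eqn a₁ a₃ w).Δ ∧ 12 * d - 1 ≤ (eqn a₁ a₃ w).Δ.natDegree}

/-- The pairs `(a₁, a₃)` we allow. -/
structure Admissible (a₁ a₃ : k[X]) (d : ℕ) : Prop where
  squarefree : Squarefree a₁
  natDegree : a₁.natDegree = d
  coprime : IsCoprime a₁ a₃
  natDegree' : a₃.natDegree ≤ 3 * d

theorem lt_iff {f : k[X]} {n : ℕ} : f ∈ degreeLT k (n + 1) ↔ f.natDegree ≤ n := by
  rw [mem_degreeLT]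
  constructor
  · intro h
    by_cases hf : f = 0
    · rw [hf, natDegree_zero]; exact Nat.zero_le _
    · rw [degree_eq_natDegree hf] at h
      have : f.natDegree < n + 1 := by exact_mod_cast h
      omega
  · intro h
    exact lt_of_le_of_lt degree_le_natDegree (by exact_mod_cast Nat.lt_succ_of_le h)

/-- the family in terms of boxes -/
def famEquiv (a₁ a₃ : k[X]) (d : ℕ) : Fam a₁ a₃ d ≃ family a₁ a₃ d where
  toFun w := ⟨(w.1.1.1, w.1.2.1.1, w.1.2.2.1), lt_iff.mp w.1.1.2, lt_iff.mp w.1.2.1.2,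
    lt_iff.mp w.1.2.2.2, w.2⟩
  invFun w := ⟨(⟨w.1.1, lt_iff.mpr w.2.1⟩, (⟨w.1.2.1, lt_iff.mpr w.2.2.1⟩,
    ⟨w.1.2.2, lt_iff.mpr w.2.2.2.1⟩)), w.2.2.2.2⟩
  left_inv _ := rfl
  right_inv _ := rfl

variable [Finite k] [CharP k 2]

theorem Admissible.lt {a₁ a₃ : k[X]} {d : ℕ} (h : Admissible a₁ a₃ d) :
    a₃.degree < ((3 * d + 1 : ℕ) : WithBot ℕ) := mem_degreeLT.mp (lt_iff.mpr h.natDegree')

theorem sum_family (a₁ a₃ : k[X]) (d : ℕ) :
    ∑ᶠ w : family a₁ a₃ d, (Nat.card (SelmerGroup (curve a₁ a₃ w.1) 2) : ℝ)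
      = ((∑ᶠ w : Fam a₁ a₃ d, Nat.card (Sel a₁ a₃ w.1) : ℕ) : ℝ) := by
  have := Fintype.ofFinite (Fam a₁ a₃ d)
  rw [← finsum_comp_equiv (famEquiv a₁ a₃ d), finsum_eq_sum_of_fintype, finsum_eq_sum_of_fintype,
    Nat.cast_sum]
  rfl

/-- **Theorem.** Average size of the 2-Selmer group over `𝔽_q(t)` for even `q`. -/
theorem result {k : Type u} [Field k] [Finite k] [CharP k 2] :
    (∀ ε : ℝ, 0 < ε → ∃ d₀ : ℕ, ∀ d ≥ d₀, ∀ a₁ a₃ : k[X], Admissible a₁ a₃ d →
      (family a₁ a₃ d).Nonempty ∧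
      ∑ᶠ w : family a₁ a₃ d, (Nat.card (SelmerGroup (curve a₁ a₃ w.1) 2) : ℝ)
        ≤ (3 + ε) * Nat.card (family a₁ a₃ d)) ∧
    (∀ d : ℕ, 1 ≤ d → ∀ a₁ a₃ : k[X], Admissible a₁ a₃ d →
      (family a₁ a₃ d).Finite ∧
      (∀ w ∈ family a₁ a₃ d, NoTorsion (curve a₁ a₃ w) 2 ∧
        Finite (SelmerGroup (curve a₁ a₃ w) 2)) ∧
      ∑ᶠ w : family a₁ a₃ d, (Nat.card (SelmerGroup (curve a₁ a₃ w.1) 2) : ℝ)
        ≤ Nat.card (family a₁ a₃ d) + 2 * (Nat.card k : ℝ) ^ (12 * d + 6) /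
          (((Nat.card k : ℝ) - 1) * ((Nat.card k : ℝ) ^ 2 - 1))) := by
  have hq := two_le_card (k := k)
  have hq0 : (0 : ℝ) < Nat.card k := by linarith
  constructor
  · intro ε hε
    obtain ⟨n, hn⟩ := exists_pow_lt_of_lt_one (show (0 : ℝ) < ε / 72 by positivity)
      (show (2 : ℝ)⁻¹ < 1 by norm_num)
    obtain ⟨s, hs⟩ : ∃ s, s = n + 5 := ⟨_, rfl⟩
    refine ⟨(prS (SS k s)).natDegree + n + 1 + s, ?_⟩
    intro d hd a₁ a₃ h
    have hd1 : 1 ≤ d := by omega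
    obtain ⟨h1, h2⟩ := main_bound (a₁ := a₁) (a₃ := a₃) (d := d) s n (by omega) hd h.squarefree
      h.coprime h.natDegree h.lt
    have h3 := card_Fam hd1 h.squarefree h.coprime h.natDegree h.lt
    have h4 := sum_Sel hd1 h.squarefree h.coprime h.natDegree h.lt
    have h5 : Nat.card (family a₁ a₃ d) = Nat.card (Fam a₁ a₃ d) :=
      (Nat.card_congr (famEquiv a₁ a₃ d)).symm
    have hpos : 0 < Nat.card k ^ (4 * d + 2) := pow_pos Nat.card_pos _
    have h6 : 0 < Nat.card (family a₁ a₃ d) := by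
      rw [h5, h3]; exact Nat.mul_pos h2 hpos
    refine ⟨?_, ?_⟩
    · by_contra hE
      rw [Set.not_nonempty_iff_eq_empty] at hE
      rw [hE] at h6
      simp at h6
    rw [sum_family, h5]
    have h7 : ((∑ᶠ w : Fam a₁ a₃ d, Nat.card (Sel a₁ a₃ w.1) : ℕ) : ℝ)
        ≤ (Nat.card (Fam a₁ a₃ d) : ℝ) + (Nat.card k : ℝ) ^ (4 * d + 2) * Nat.card (SZ a₁ a₃ d) := by
      exact_mod_cast h4
    have h8 : 36 * ((2 : ℝ) ^ s)⁻¹ + 32 * ((2 : ℝ) ^ n)⁻¹ ≤ ε := by
      rw [← inv_pow, ← inv_pow]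
      have h9 : ((2 : ℝ)⁻¹) ^ s ≤ ((2 : ℝ)⁻¹) ^ n :=
        pow_le_pow_of_le_one (by norm_num) (by norm_num) (by omega)
      linarith
    have h10 : (Nat.card (SZ a₁ a₃ d) : ℝ) ≤ (2 + ε) * Nat.card {D // Gd a₁ a₃ d D} := by
      refine h1.trans (mul_le_mul_of_nonneg_right (by linarith) (Nat.cast_nonneg _))
    have h11 : (Nat.card (Fam a₁ a₃ d) : ℝ)
        = Nat.card {D // Gd a₁ a₃ d D} * (Nat.card k : ℝ) ^ (4 * d + 2) := by
      rw [h3]; push_cast; rfl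
    have h12 : (0 : ℝ) < (Nat.card k : ℝ) ^ (4 * d + 2) := by positivity
    calc _ ≤ (Nat.card (Fam a₁ a₃ d) : ℝ)
          + (Nat.card k : ℝ) ^ (4 * d + 2) * ((2 + ε) * Nat.card {D // Gd a₁ a₃ d D}) :=
          h7.trans (by gcongr)
      _ = _ := by rw [h11]; ring
  · intro d hd a₁ a₃ h
    refine ⟨?_, ?_, ?_⟩
    · have : Finite (family a₁ a₃ d) := Finite.of_equiv _ (famEquiv a₁ a₃ d)
      exact Set.toFinite _
    · intro w hw
      obtain ⟨w', hw'⟩ : ∃ w', famEquiv a₁ a₃ d w' = ⟨w, hw⟩ := (famEquiv a₁ a₃ d).surjective _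
      have hww : (famEquiv a₁ a₃ d w').1 = w := congrArg Subtype.val hw'
      have h1 := finite_Sel hd h.squarefree h.coprime h.natDegree h.lt w'.1 w'.2
      have hk := hk_crv _ (hk_Wc hd h.squarefree h.coprime h.natDegree w'.1)
      rw [← hww]
      exact ⟨fun P hP => no_torsion basisX hk (sepK basisX) P hP, h1⟩
    · have h3 := card_Fam hd h.squarefree h.coprime h.natDegree h.lt
      have h4 := sum_Sel hd h.squarefree h.coprime h.natDegree h.lt
      have h5 : Nat.card (family a₁ a₃ d) = Nat.card (Fam a₁ a₃ d) :=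
        (Nat.card_congr (famEquiv a₁ a₃ d)).symm
      have h6 := exact_bound hd h.squarefree h.coprime h.natDegree h.lt
      rw [sum_family, h5]
      have h7 : ((∑ᶠ w : Fam a₁ a₃ d, Nat.card (Sel a₁ a₃ w.1) : ℕ) : ℝ)
          ≤ (Nat.card (Fam a₁ a₃ d) : ℝ) + (Nat.card k : ℝ) ^ (4 * d + 2) * Nat.card (SZ a₁ a₃ d) := by
        exact_mod_cast h4
      refine h7.trans ?_
      have h8 := mul_le_mul_of_nonneg_left h6
        (by positivity : (0 : ℝ) ≤ (Nat.card k : ℝ) ^ (4 * d + 2))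
      have e : (Nat.card k : ℝ) ^ (4 * d + 2) * ((Nat.card k : ℝ) ^ (8 * d + 3) *
          (2 * (Nat.card k : ℝ) / (((Nat.card k : ℝ) - 1) * ((Nat.card k : ℝ) ^ 2 - 1))))
          = 2 * (Nat.card k : ℝ) ^ (12 * d + 6) /
          (((Nat.card k : ℝ) - 1) * ((Nat.card k : ℝ) ^ 2 - 1)) := by
        have e2 : (Nat.card k : ℝ) ^ (12 * d + 6)
            = (Nat.card k : ℝ) ^ (4 * d + 2) * (Nat.card k : ℝ) ^ (8 * d + 3) * Nat.card k := by
          rw [← pow_add, ← pow_succ]; congr 1; ring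
        rw [e2]; ring
      rw [e] at h8
      linarith

end Pool.Agent.Results.MP_a3f657_nt.SelmerTwoCharTwo
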